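import Pool.Agent.U157.CC.Fin

/-!
# Colmez's product formula: for which CM fields do the averaged and the abelian cases suffice?

`E` is any CM field, `K` a CM field, Galois over `ℚ`, with group `G`, which contains the conjugates of `E`, and
`c ∈ G` is the complex conjugation.  The notions `conjugation`, `act`, `IsCMType`, `a0` (Colmez's function
`a⁰_{E,ψ,Φ}`), `heightFn` (`A_Φ = ∑_{ψ ∈ Φ} a⁰_{E,ψ,Φ}`, the function of the Faltings height), `avgSpan` (the span
of `1` and of the sums of the `A_Φ` over all CM types of a field, for which the formula is the averaged formula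
of Andreatta, Goren, Howard, Madapusi Pera and of Yuan, Zhang) and `abSpan` (the span of the `a⁰_{E,ψ,Φ}` of the
abelian fields; Colmez, Obus) are those of the starting file `AveragedAndAbelian`.

An *odd constituent* of `E` is an irreducible complex representation of `G` on which `c` acts as `-1` and which
occurs in the permutation representation of `G` on the set `H_E` of the embeddings of `E`; by Frobenius
reciprocity this means that the subgroup fixing one embedding has a nonzero invariant vector.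

**Theorem.** For every CM field `E`:
(1) the formula for all CM types `Φ` of `E` and all `ψ` is a consequence of the averaged formula if and only if
all odd constituents of `E` have rational characters;
(2) it is a consequence of the averaged formula and of the abelian case if and only if all odd constituents of
dimension greater than one have rational characters;
(3) the formula for the Faltings heights of all CM types of `E` is a consequence of the averaged formula if and
only if the character values of each odd constituent are in `ℚ` or in an imaginary quadratic field;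
(4) it is a consequence of the averaged formula and of the abelian case if and only if this holds for the odd
constituents of dimension greater than one.

There is no hypothesis on `E`.  (The starting file `FewAutomorphisms` proves (1) and (3) if linked embeddings
have the same image; then the odd constituents are induced from the representations of the group of the
automorphisms of `E`.)

The proof.  The formulas for all `Φ` and all `ψ` are equivalent to the formulas for the differences `δ_{ψ,θ}`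
of the numbers of the `η` with `g η ψ = η θ` and of those with `g η ψ = c η θ`; the formulas for all `A_Φ` to
those for `δ_{ψ,θ} + δ_{θ,ψ}`.  The coefficient of `δ_{ψ,θ}` at an irreducible character `χ` is `0` if `χ` is even
and `2 S_χ(ψ,θ)`, `S_χ(ψ,θ) = ∑_{g ψ = θ} χ(g⁻¹)`, if `χ` is odd.  For each `χ` the function `S_χ` of `θ` vanishes if
and only if `χ` does not occur in the permutation representation; and it is an eigenfunction of the convolution
with `χ`, and is killed by the convolution with the other irreducible characters.  So the equations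
`S_χ = S_χ'` (or `S_χ + S_{bar χ} = S_χ' + S_{bar χ'}`) for a Galois conjugate `χ'` of `χ` force `χ' = χ` (or
`χ' = χ`, `bar χ`).
-/

set_option autoImplicit false

open NumberField
open Pool.Agent.Results.MP_a2beea_nt.AveragedAndAbelian

namespace Pool.Agent.Results.MP_a2beea_nt.ExactCriterion

variable {E K : Type} [Field E] [NumberField E] [Field K] [NumberField K] [IsCMField K]

/-- `ρ` is an odd constituent: it is irreducible, the complex conjugation acts as `-1`, and it occurs in the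
permutation representation on the embeddings of `E` (there is a nonzero vector which is fixed by all `g` with
`g ψ = ψ`; all embeddings `ψ` are conjugate). -/
structure IsOddConstituent (ψ : E →ₐ[ℚ] K) {n : ℕ} (ρ : Representation ℂ (K ≃ₐ[ℚ] K) (Fin n → ℂ)) :
    Prop where
  irreducible : ρ.IsIrreducible
  odd : ρ (conjugation K) = -1
  occurs : ∃ v : Fin n → ℂ, v ≠ 0 ∧ ∀ g : K ≃ₐ[ℚ] K, act g ψ = ψ → ρ g v = v

/-- All values of the character are rational. -/
def RationalValues {n : ℕ} (ρ : Representation ℂ (K ≃ₐ[ℚ] K) (Fin n → ℂ)) : Prop :=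
  ∀ g : K ≃ₐ[ℚ] K, ∃ q : ℚ, LinearMap.trace ℂ (Fin n → ℂ) (ρ g) = q

/-- The values of the character are in `ℚ` or in an imaginary quadratic field: they are of the form
`a + b √d i` with rational `a`, `b` and one natural number `d`. -/
def QuadraticValues {n : ℕ} (ρ : Representation ℂ (K ≃ₐ[ℚ] K) (Fin n → ℂ)) : Prop :=
  ∃ d : ℕ, ∀ g : K ≃ₐ[ℚ] K, ∃ a b : ℚ,
    LinearMap.trace ℂ (Fin n → ℂ) (ρ g) = a + b * ((Real.sqrt d : ℝ) : ℂ) * Complex.I

lemma odd_iff (ψ : E →ₐ[ℚ] K) {n : ℕ} (ρ : Representation ℂ (K ≃ₐ[ℚ] K) (Fin n → ℂ)) :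
    Pool.Agent.U157.CC.OddC (conjugation K) ψ ρ ↔ IsOddConstituent ψ ρ :=
  ⟨fun h => ⟨h.irr, h.odd, h.occ⟩, fun h => ⟨h.irreducible, h.odd, h.occurs⟩⟩

lemma one_mem : (fun _ => 1 : (K ≃ₐ[ℚ] K) → ℚ) ∈ avgSpan K :=
  Submodule.subset_span (Or.inl rfl)

section

variable [IsCMField E] [IsGalois ℚ K]

lemma free (ψ : E →ₐ[ℚ] K) : conjugation K • ψ ≠ ψ := by
  intro h
  have h1 : Pool.Agent.N770.CP.rr (conjugation E) ψ = ψ :=
    (Pool.Agent.N770.CP.rr_conj ψ).trans h
  have h2 : (conjugation E)⁻¹ = 1 := by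
    apply AlgEquiv.ext
    intro x
    exact ψ.injective (congrArg (fun f : E →ₐ[ℚ] K => f x) h1)
  exact Pool.Agent.N770.CP.conj_ne_one (inv_eq_one.mp h2)

lemma dq_cm (ψ θ : E →ₐ[ℚ] K) :
    IsCMFunction (Pool.Agent.U157.CC.dq (conjugation K) ψ θ : (K ≃ₐ[ℚ] K) → ℚ) := by
  refine ⟨fun g h => ?_, 0, fun g => ?_⟩
  · have h1 := Pool.Agent.U157.CC.dl_conj (conjugation K) ψ θ g h⁻¹
    rw [inv_inv, Pool.Agent.U157.CC.dl_dq] at h1
    beta_reduce at h1
    exact_mod_cast h1
  · have hcc : conjugation K • (conjugation K • θ) = θ := by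
      rw [← mul_smul, show conjugation K * conjugation K = 1 from
        Pool.Agent.Q11.CZ.conj_mul_self, one_smul]
    have e1 : ∀ θ : E →ₐ[ℚ] K, Pool.Agent.N770.CP.cnt ψ θ (conjugation K * g) =
        Pool.Agent.N770.CP.cnt ψ (conjugation K • θ) g := fun θ =>
      Pool.Agent.N770.CP.cnt_c Pool.Agent.Q11.CZ.conj_comm ψ θ Pool.Agent.Q11.CZ.conj_mul_self g
    unfold Pool.Agent.U157.CC.dq
    rw [e1, e1, hcc]
    ring

lemma cm_add {f f' : (K ≃ₐ[ℚ] K) → ℚ} (hf : IsCMFunction f) (hf' : IsCMFunction f') :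
    IsCMFunction (f + f') := by
  obtain ⟨h1, s, h2⟩ := hf
  obtain ⟨h1', s', h2'⟩ := hf'
  refine ⟨fun g h => by rw [Pi.add_apply, Pi.add_apply, h1, h1'], s + s', fun g => ?_⟩
  rw [Pi.add_apply, Pi.add_apply, ← h2 g, ← h2' g]
  ring

end

open Pool.Agent.U157.CC in
/-- **Main result.** -/
theorem result (E : Type) [Field E] [NumberField E] [IsCMField E]
    (K : Type) [Field K] [NumberField K] [IsGalois ℚ K] [IsCMField K] (ψ₀ : E →ₐ[ℚ] K) :
    ((∀ Φ : Finset (E →ₐ[ℚ] K), IsCMType Φ → ∀ ψ : E →ₐ[ℚ] K, a0 ψ Φ ∈ avgSpan K) ↔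
      ∀ (n : ℕ) (ρ : Representation ℂ (K ≃ₐ[ℚ] K) (Fin n → ℂ)), IsOddConstituent ψ₀ ρ →
        RationalValues ρ) ∧
    ((∀ Φ : Finset (E →ₐ[ℚ] K), IsCMType Φ → ∀ ψ : E →ₐ[ℚ] K, a0 ψ Φ ∈ avgSpan K ⊔ abSpan K) ↔
      ∀ (n : ℕ) (ρ : Representation ℂ (K ≃ₐ[ℚ] K) (Fin n → ℂ)), IsOddConstituent ψ₀ ρ → n ≠ 1 →
        RationalValues ρ) ∧
    ((∀ Φ : Finset (E →ₐ[ℚ] K), IsCMType Φ → heightFn Φ ∈ avgSpan K) ↔
      ∀ (n : ℕ) (ρ : Representation ℂ (K ≃ₐ[ℚ] K) (Fin n → ℂ)), IsOddConstituent ψ₀ ρ →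
        QuadraticValues ρ) ∧
    ((∀ Φ : Finset (E →ₐ[ℚ] K), IsCMType Φ → heightFn Φ ∈ avgSpan K ⊔ abSpan K) ↔
      ∀ (n : ℕ) (ρ : Representation ℂ (K ≃ₐ[ℚ] K) (Fin n → ℂ)), IsOddConstituent ψ₀ ρ → n ≠ 1 →
        QuadraticValues ρ) := by
  classical
  have hc : ∀ g : K ≃ₐ[ℚ] K, conjugation K * g = g * conjugation K :=
    fun g => Pool.Agent.Q11.CZ.conj_comm (K := K) g
  have hc2 : conjugation K * conjugation K = 1 := Pool.Agent.Q11.CZ.conj_mul_self (K := K)
  have hc1 : conjugation K ≠ 1 := Pool.Agent.N770.CP.conj_ne_one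
  have hcf : ∀ ψ : E →ₐ[ℚ] K, conjugation K • ψ ≠ ψ := free
  obtain ⟨r1, r2, -, -, -⟩ := Pool.Agent.Results.MP_a2beea_nt.AveragedAndAbelian.result K
  have h1 : (fun _ => 1 : (K ≃ₐ[ℚ] K) → ℚ) ∈ avgSpan K := one_mem
  have h1' : (fun _ => 1 : (K ≃ₐ[ℚ] K) → ℚ) ∈ avgSpan K ⊔ abSpan K := Submodule.mem_sup_left one_mem
  have ha : ∀ V : Submodule ℚ ((K ≃ₐ[ℚ] K) → ℚ), (fun _ => 1 : (K ≃ₐ[ℚ] K) → ℚ) ∈ V →
      ((∀ Φ : Finset (E →ₐ[ℚ] K), IsCMType Φ → ∀ ψ : E →ₐ[ℚ] K, a0 ψ Φ ∈ V) ↔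
        ∀ ψ θ : E →ₐ[ℚ] K, (dq (conjugation K) ψ θ : (K ≃ₐ[ℚ] K) → ℚ) ∈ V) := by
    intro V h1
    have key := span_one (X := E →ₐ[ℚ] K) hc hc2 hcf h1
    constructor
    · intro h
      exact key.mp (fun Φ hΦ ψ => by rw [← a0_eq]; exact h Φ hΦ ψ)
    · intro h Φ hΦ ψ
      rw [a0_eq]
      exact key.mpr h Φ hΦ ψ
  have hzero : ∀ ψ : E →ₐ[ℚ] K, (dq (conjugation K) ψ ψ : (K ≃ₐ[ℚ] K) → ℚ) ∈ avgSpan K :=
    fun ψ => (r1 _).mpr ⟨dq_cm ψ ψ, fun g g' hgg => dq_self hc hc2 hc1 ψ hgg⟩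
  have hb : ∀ V : Submodule ℚ ((K ≃ₐ[ℚ] K) → ℚ), avgSpan K ≤ V →
      ((∀ Φ : Finset (E →ₐ[ℚ] K), IsCMType Φ → heightFn Φ ∈ V) ↔
        ∀ ψ θ : E →ₐ[ℚ] K,
          (dq (conjugation K) ψ θ + dq (conjugation K) θ ψ : (K ≃ₐ[ℚ] K) → ℚ) ∈ V) := by
    intro V hV
    have key := span_two (X := E →ₐ[ℚ] K) hc hc2 hcf (hV h1) (fun ψ => hV (hzero ψ))
    constructor
    · intro h
      exact key.mp (fun Φ hΦ => by rw [← heightFn_eq]; exact h Φ hΦ)
    · intro h Φ hΦ
      rw [heightFn_eq]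
      exact key.mpr h Φ hΦ
  have hodd : ∀ (n : ℕ) (ρ : Representation ℂ (K ≃ₐ[ℚ] K) (Fin n → ℂ)),
      OddC (conjugation K) ψ₀ ρ ↔ IsOddConstituent ψ₀ ρ := fun n ρ => odd_iff ψ₀ ρ
  refine ⟨?_, ?_, ?_, ?_⟩
  · rw [ha _ h1]
    have h2 := grp_one (X := E →ₐ[ℚ] K) hc hc2 hc1 ψ₀
    simp only [hodd] at h2
    refine Iff.trans ?_ h2
    refine forall_congr' fun ψ => forall_congr' fun θ => ?_
    rw [r1]
    exact ⟨fun h => h.2, fun h => ⟨dq_cm ψ θ, h⟩⟩
  · rw [ha _ h1']
    have h2 := grp_two (X := E →ₐ[ℚ] K) hc hc2 hc1 ψ₀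
    simp only [hodd] at h2
    refine Iff.trans ?_ h2
    refine forall_congr' fun ψ => forall_congr' fun θ => ?_
    rw [r2]
    exact ⟨fun h => h.2, fun h => ⟨dq_cm ψ θ, h⟩⟩
  · rw [hb _ le_rfl]
    have h2 := grp_three (X := E →ₐ[ℚ] K) hc hc2 hc1 ψ₀
    simp only [hodd] at h2
    refine Iff.trans ?_ h2
    refine forall_congr' fun ψ => forall_congr' fun θ => ?_
    rw [r1]
    exact ⟨fun h => h.2, fun h => ⟨cm_add (dq_cm ψ θ) (dq_cm θ ψ), h⟩⟩
  · rw [hb _ le_sup_left]
    have h2 := grp_four (X := E →ₐ[ℚ] K) hc hc2 hc1 ψ₀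
    simp only [hodd] at h2
    refine Iff.trans ?_ h2
    refine forall_congr' fun ψ => forall_congr' fun θ => ?_
    rw [r2]
    exact ⟨fun h => h.2, fun h => ⟨cm_add (dq_cm ψ θ) (dq_cm θ ψ), h⟩⟩

end Pool.Agent.Results.MP_a2beea_nt.ExactCriterion
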