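import Pool.Agent.U157.CC.Prime8
import Pool.Agent.Results.MP_a2beea_nt.ExactCriterion

/-!
# Colmez's product formula for the CM fields of degree `2 p`

`E` is a CM field, `E⁺` its maximal totally real subfield, and `p = [E⁺ : ℚ]` is an odd prime; `K` is a CM field,
Galois over `ℚ`, which contains the conjugates of `E`.  The notions `conjugation`, `act`, `IsCMType`, `a0` (Colmez's
function `a⁰_{E,ψ,Φ}`), `heightFn` (`A_Φ = ∑_{ψ ∈ Φ} a⁰_{E,ψ,Φ}`, the function of the Faltings height), `avgSpan`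
(the span of `1` and of the sums of the `A_Φ` over all CM types of a field, for which the formula is the averaged
formula of Andreatta, Goren, Howard, Madapusi Pera and of Yuan, Zhang) and `abSpan` (the span of the
`a⁰_{E,ψ,Φ}` of the abelian fields; Colmez, Obus) are those of the starting file `AveragedAndAbelian`.

**Theorem.** Let `r` be the number of the orbits of the Galois group on the pairs of embeddings of `E⁺`
(the number of the factors of `E⁺ ⊗ E⁺`; so `2 ≤ r ≤ p`).  If `E` contains no imaginary quadratic field, the formula for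
all CM types `Φ` of `E` and all `ψ` is a consequence of the averaged formula.  If `E` contains an imaginary
quadratic field, then
* the formula for all `Φ` and all `ψ` is a consequence of the averaged formula if and only if `r = 2`,
* it is a consequence of the averaged formula and of the abelian case if and only if `r = 2` or `r = p`,
* the formula for the Faltings heights of all CM types is a consequence of the averaged formula if and only if
  `r = 2`, or `r = 3` and `p ≡ 3` modulo `4`,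
* it is a consequence of the averaged formula and of the abelian case if and only if `r = 2` or `r = p`, or
  `r = 3` and `p ≡ 3` modulo `4`.

So Colmez's formula holds for all CM fields of degree `2 p` which contain no imaginary quadratic field.

The proof.  Let `X` be the set of the `2 p` embeddings of `E`, on which the complex conjugation `c` acts freely.  Some
`g` acts on `X` with two cycles of length `p`, exchanged by `c`.  For every `z` with `z ^ p = 1` there is one odd
function `ω_z` on `X` with the eigenvalue `z` for `g` and the value `1` at a base point.  The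
`G`-equivariant operators on the odd functions are diagonal for the `ω_z`, and those given by the sums
`S_χ(x,y) = ∑_{h x = y} χ(h⁻¹)` have the eigenvalues `0` and `|G| / χ(1)`; for each `z` there is exactly one odd
constituent `χ` with a nonzero eigenvalue, and this correspondence commutes with the Galois group of the
cyclotomic field.  So the constituent of `z = 1` is rational.  If it also belongs to some `z ≠ 1` it is the only odd
constituent, and everything is rational.  If not, it is a character of degree one with the values `±1`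
which is trivial on the stabiliser of the base point: it belongs to an imaginary quadratic subfield of `E`.  In
this case the other constituents are conjugate; they have multiplicity one, so that by
Burnside's lemma there are `r - 1` of them, and the criteria of `ExactCriterion` give the theorem.
-/

set_option autoImplicit false
set_option linter.unusedSectionVars false

open NumberField
open Pool.Agent.Results.MP_a2beea_nt.AveragedAndAbelian

namespace Pool.Agent.Results.MP_a2beea_nt.PrimeDegree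

/-- `E` contains an imaginary quadratic field. -/
def ContainsImaginaryQuadratic (E : Type) [Field E] : Prop :=
  ∃ (x : E) (d : ℕ), 0 < d ∧ x ^ 2 = -(d : E)

/-- Two pairs of embeddings of the maximal totally real subfield of `E` into `K` are in the same orbit under
the Galois group of `K`. -/
def pairSetoid (E K : Type) [Field E] [NumberField E] [Field K] [NumberField K] :
    Setoid ((maximalRealSubfield E →ₐ[ℚ] K) × (maximalRealSubfield E →ₐ[ℚ] K)) where
  r u v := ∃ g : K ≃ₐ[ℚ] K, act g u.1 = v.1 ∧ act g u.2 = v.2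
  iseqv := ⟨fun u => ⟨1, AlgHom.ext fun _ => rfl, AlgHom.ext fun _ => rfl⟩, by
    rintro u v ⟨g, h1, h2⟩
    refine ⟨g⁻¹, ?_, ?_⟩
    · rw [← h1]
      refine AlgHom.ext fun x => ?_
      exact g.symm_apply_apply (u.1 x)
    · rw [← h2]
      refine AlgHom.ext fun x => ?_
      exact g.symm_apply_apply (u.2 x), by
    rintro u v w ⟨g, h1, h2⟩ ⟨h, h3, h4⟩
    refine ⟨h * g, ?_, ?_⟩
    · rw [← h3, ← h1]
      rfl
    · rw [← h4, ← h2]
      rfl⟩

/-- The number of the orbits of the Galois group of `K` on the pairs of embeddings of the maximal totally real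
subfield of `E` into `K`. -/
noncomputable def pairOrbits (E K : Type) [Field E] [NumberField E] [Field K] [NumberField K] : ℕ :=
  Nat.card (Quotient (pairSetoid E K))

section

variable {E K : Type} [Field E] [NumberField E] [Field K] [NumberField K] [IsCMField K]
  [IsCMField E] [IsGalois ℚ K]

open Pool.Agent.U157.CC Pool.Agent.Helper606_LC Pool.Agent.H541R3.ART

lemma pairOrbits_eq : pairOrbits E K = Nat.card (Quotient (MulAction.orbitRel (K ≃ₐ[ℚ] K)
    ((maximalRealSubfield E →ₐ[ℚ] K) × (maximalRealSubfield E →ₐ[ℚ] K)))) := by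
  refine Nat.card_congr (Quotient.congr (Equiv.refl _) fun u v => ?_)
  constructor
  · rintro ⟨g, h1, h2⟩
    refine ⟨g⁻¹, ?_⟩
    change g⁻¹ • v = u
    rw [inv_smul_eq_iff]
    exact (Prod.ext h1 h2).symm
  · rintro ⟨g, hg⟩
    refine ⟨g⁻¹, ?_, ?_⟩
    · have h1 : g • v.1 = u.1 := congrArg Prod.fst hg
      change g⁻¹ • u.1 = v.1
      rw [inv_smul_eq_iff, h1]
    · have h1 : g • v.2 = u.2 := congrArg Prod.snd hg
      change g⁻¹ • u.2 = v.2
      rw [inv_smul_eq_iff, h1]

lemma all_oc (ψ₀ : E →ₐ[ℚ] K) (P : ((K ≃ₐ[ℚ] K) → ℂ) → Prop) :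
    (∀ (n : ℕ) (ρ : Representation ℂ (K ≃ₐ[ℚ] K) (Fin n → ℂ)),
      ExactCriterion.IsOddConstituent ψ₀ ρ → P ρ.character) ↔
      ∀ χ : (K ≃ₐ[ℚ] K) → ℂ, OC (conjugation K) ψ₀ χ → P χ := by
  have h1 := all_irr (G := K ≃ₐ[ℚ] K) (c := conjugation K) f_hc ψ₀ P
  simp only [ExactCriterion.odd_iff] at h1
  rw [← h1]
  exact ⟨fun h χ hχ => h χ hχ.irr hχ.odd hχ.occ, fun h χ h1 h2 h3 => h χ ⟨h1, h2, h3⟩⟩

lemma restr_surj (ψ₀ : E →ₐ[ℚ] K) :
    Function.Surjective (restr : (E →ₐ[ℚ] K) → (maximalRealSubfield E →ₐ[ℚ] K)) := by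
  intro α
  obtain ⟨g, hg⟩ := MulAction.exists_smul_eq (K ≃ₐ[ℚ] K) (restr ψ₀) α
  exact ⟨g • ψ₀, hg⟩

end

open Pool.Agent.U157.CC Pool.Agent.Helper606_LC Pool.Agent.H541R3.ART in
/-- **Main result.** -/
theorem result (E : Type) [Field E] [NumberField E] [IsCMField E]
    (K : Type) [Field K] [NumberField K] [IsGalois ℚ K] [IsCMField K] (ψ₀ : E →ₐ[ℚ] K)
    (p : ℕ) (hp : p.Prime) (hp2 : p ≠ 2) (hE : Module.finrank ℚ (maximalRealSubfield E) = p) :
    ((∀ Φ : Finset (E →ₐ[ℚ] K), IsCMType Φ → ∀ ψ : E →ₐ[ℚ] K, a0 ψ Φ ∈ avgSpan K) ↔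
      (¬ ContainsImaginaryQuadratic E ∨ pairOrbits E K = 2)) ∧
    ((∀ Φ : Finset (E →ₐ[ℚ] K), IsCMType Φ → ∀ ψ : E →ₐ[ℚ] K, a0 ψ Φ ∈ avgSpan K ⊔ abSpan K) ↔
      (¬ ContainsImaginaryQuadratic E ∨ pairOrbits E K = 2 ∨ pairOrbits E K = p)) ∧
    ((∀ Φ : Finset (E →ₐ[ℚ] K), IsCMType Φ → heightFn Φ ∈ avgSpan K) ↔
      (¬ ContainsImaginaryQuadratic E ∨ pairOrbits E K = 2 ∨
        (pairOrbits E K = 3 ∧ p % 4 = 3))) ∧
    ((∀ Φ : Finset (E →ₐ[ℚ] K), IsCMType Φ → heightFn Φ ∈ avgSpan K ⊔ abSpan K) ↔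
      (¬ ContainsImaginaryQuadratic E ∨ pairOrbits E K = 2 ∨ pairOrbits E K = p ∨
        (pairOrbits E K = 3 ∧ p % 4 = 3))) := by
  classical
  obtain ⟨e1, e2, e3, e4⟩ := ExactCriterion.result E K ψ₀
  rw [e1, e2, e3, e4]
  -- the criteria in terms of the constituents
  have r1 : (∀ (n : ℕ) (ρ : Representation ℂ (K ≃ₐ[ℚ] K) (Fin n → ℂ)),
      ExactCriterion.IsOddConstituent ψ₀ ρ → ExactCriterion.RationalValues ρ) ↔
      ∀ χ : (K ≃ₐ[ℚ] K) → ℂ, OC (conjugation K) ψ₀ χ → ∀ k : (ZMod (Nat.card (K ≃ₐ[ℚ] K)))ˣ, pw k χ = χ := by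
    refine (all_oc ψ₀ (fun χ => RatVal χ)).trans ?_
    exact forall_congr' fun χ => forall_congr' fun h => (rat_iff h.irr).symm
  have r2 : (∀ (n : ℕ) (ρ : Representation ℂ (K ≃ₐ[ℚ] K) (Fin n → ℂ)),
      ExactCriterion.IsOddConstituent ψ₀ ρ → n ≠ 1 → ExactCriterion.RationalValues ρ) ↔
      ∀ χ : (K ≃ₐ[ℚ] K) → ℂ, OC (conjugation K) ψ₀ χ → χ 1 ≠ 1 → ∀ k : (ZMod (Nat.card (K ≃ₐ[ℚ] K)))ˣ, pw k χ = χ := by
    have h1 := all_oc ψ₀ (fun χ => χ 1 ≠ 1 → RatVal χ)
    refine Iff.trans ?_ (h1.trans ?_)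
    · refine forall_congr' fun n => forall_congr' fun ρ => forall_congr' fun _ => ?_
      rw [char_one, Ne, Ne, Nat.cast_eq_one]
      exact Iff.rfl
    · exact forall_congr' fun χ => forall_congr' fun h => forall_congr' fun _ => (rat_iff h.irr).symm
  have r3 : (∀ (n : ℕ) (ρ : Representation ℂ (K ≃ₐ[ℚ] K) (Fin n → ℂ)),
      ExactCriterion.IsOddConstituent ψ₀ ρ → ExactCriterion.QuadraticValues ρ) ↔
      ∀ χ : (K ≃ₐ[ℚ] K) → ℂ, OC (conjugation K) ψ₀ χ → ∀ k : (ZMod (Nat.card (K ≃ₐ[ℚ] K)))ˣ, pw k χ = χ ∨ pw k χ = bar χ := by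
    refine (all_oc ψ₀ (fun χ => QuadVal χ)).trans ?_
    exact forall_congr' fun χ => forall_congr' fun h => (quad_iff h.irr).symm
  have r4 : (∀ (n : ℕ) (ρ : Representation ℂ (K ≃ₐ[ℚ] K) (Fin n → ℂ)),
      ExactCriterion.IsOddConstituent ψ₀ ρ → n ≠ 1 → ExactCriterion.QuadraticValues ρ) ↔
      ∀ χ : (K ≃ₐ[ℚ] K) → ℂ, OC (conjugation K) ψ₀ χ → χ 1 ≠ 1 →
        ∀ k : (ZMod (Nat.card (K ≃ₐ[ℚ] K)))ˣ, pw k χ = χ ∨ pw k χ = bar χ := by
    have h1 := all_oc ψ₀ (fun χ => χ 1 ≠ 1 → QuadVal χ)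
    refine Iff.trans ?_ (h1.trans ?_)
    · refine forall_congr' fun n => forall_congr' fun ρ => forall_congr' fun _ => ?_
      rw [char_one, Ne, Ne, Nat.cast_eq_one]
      exact Iff.rfl
    · exact forall_congr' fun χ => forall_congr' fun h => forall_congr' fun _ => (quad_iff h.irr).symm
  rw [r1, r2, r3, r4]
  have hX : Fintype.card (E →ₐ[ℚ] K) = 2 * p := by rw [card_emb ψ₀, hE]
  obtain ⟨g, hg1, hg2⟩ := exists_cyc (G := K ≃ₐ[ℚ] K) (c := conjugation K) f_hc f_hc2
    (f_free (E := E)) hp hp2 hX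
  have C : Cyc (conjugation K) g (E →ₐ[ℚ] K) p := ⟨hp, hp2, hX, hg1, hg2⟩
  by_cases hD : ContainsImaginaryQuadratic E
  · obtain ⟨x, d, hd, hx⟩ := hD
    have hs := sign_of_imag ψ₀ hd hx
    obtain ⟨χ₀, q1, q2, q3, q4⟩ := sign_OC f_hc f_hc2 f_free C hs
    have Q : SecC (conjugation K) g ψ₀ p χ₀ := ⟨q1, q2, q3, q4⟩
    have hr : pairOrbits E K = (Om (conjugation K) ψ₀).card := by
      rw [pairOrbits_eq]
      exact orbits_eq f_hc f_hc2 f_free (Y := maximalRealSubfield E →ₐ[ℚ] K) (q := restr)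
        restr_smul (fun x y h => restr_eq h) restr_conj (restr_surj ψ₀) C hs
    have hn : ¬ ¬ ContainsImaginaryQuadratic E := not_not.mpr ⟨x, d, hd, hx⟩
    have s1 := all_rat f_hc f_hc2 f_hc1 f_free C Q
    have s2 := all_quad f_hc f_hc2 f_hc1 f_free C Q
    have s3 := deg_comb f_hc f_hc2 f_hc1 f_free C Q (P := fun χ => ∀ k : (ZMod (Nat.card (K ≃ₐ[ℚ] K)))ˣ, pw k χ = χ)
      (sec_fix f_hc f_hc2 f_hc1 f_free C Q)
    have s4 := deg_comb f_hc f_hc2 f_hc1 f_free C Q (P := fun χ => ∀ k : (ZMod (Nat.card (K ≃ₐ[ℚ] K)))ˣ, pw k χ = χ ∨ pw k χ = bar χ)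
      (fun k => Or.inl (sec_fix f_hc f_hc2 f_hc1 f_free C Q k))
    rw [s3, s4, s1, s2, hr]
    refine ⟨⟨fun h => Or.inr h, fun h => h.resolve_left hn⟩,
      ⟨fun h => Or.inr h, fun h => h.resolve_left hn⟩,
      ⟨fun h => Or.inr h, fun h => h.resolve_left hn⟩,
      ⟨fun h => Or.inr ?_, fun h => ?_⟩⟩
    · rcases h with (h | h) | h
      · exact Or.inl h
      · exact Or.inr (Or.inr h)
      · exact Or.inr (Or.inl h)
    · rcases h.resolve_left hn with h | h | h
      · exact Or.inl (Or.inl h)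
      · exact Or.inr h
      · exact Or.inl (Or.inr h)
  · have hns : ¬ HasSign (conjugation K) ψ₀ := fun hs => hD (imag_of_sign ψ₀ hs)
    have hall : ∀ χ : (K ≃ₐ[ℚ] K) → ℂ, OC (conjugation K) ψ₀ χ → ∀ k : (ZMod (Nat.card (K ≃ₐ[ℚ] K)))ˣ, pw k χ = χ := fun χ h k =>
      no_sign f_hc f_hc2 f_hc1 f_free C hns h k
    exact ⟨⟨fun _ => Or.inl hD, fun _ => hall⟩, ⟨fun _ => Or.inl hD, fun _ χ h _ => hall χ h⟩,
      ⟨fun _ => Or.inl hD, fun _ χ h k => Or.inl (hall χ h k)⟩,
      ⟨fun _ => Or.inl hD, fun _ χ h _ k => Or.inl (hall χ h k)⟩⟩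

end Pool.Agent.Results.MP_a2beea_nt.PrimeDegree
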