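import Pool.Agent.U157.CD.Cvs
import Pool.Agent.Results.MP_a2beea_nt.PrimeDegree

/-!
# Colmez's product formula for the CM abelian varieties of dimension at most five

`E` is a CM field with maximal totally real subfield `E⁺`, and `n = [E⁺ : ℚ]`, so that `n` is the dimension of the
abelian varieties with complex multiplication by `E`; `K` is a CM field, Galois over `ℚ`, which contains the
conjugates of `E`.  The notions `conjugation`, `act`, `IsCMType`, `a0` (Colmez's function `a⁰_{E,ψ,Φ}`), `heightFn`
(`A_Φ = ∑_{ψ ∈ Φ} a⁰_{E,ψ,Φ}`, the function of the Faltings height), `avgSpan` (the span of `1` and of the sums of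
the `A_Φ` over all CM types of a field, for which the formula is the averaged formula of Andreatta, Goren,
Howard, Madapusi Pera and of Yuan, Zhang) and `abSpan` (the span of the `a⁰_{E,ψ,Φ}` of the abelian fields;
Colmez, Obus) are those of the starting file `AveragedAndAbelian`.

`E` is *polygonal* if the `2 n` embeddings `E → K` can be numbered by `ℤ / 2 n` in such a way that the Galois group
of `K` acts on them as the full group of symmetries of the regular polygon with `2 n` vertices: by the maps
`i ↦ a + i` and `i ↦ a - i`, and by all of them.  So the Galois closure of `E` is a dihedral field of degree `4 n`,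
and `E` is the fixed field of a reflection through a vertex.

**Theorem.** Let `n ≤ 5`.  The formula for the Faltings heights of all CM types of `E` is a consequence of the
averaged formula and of the abelian case if and only if `n ≤ 3` or `E` is not polygonal.  For every `n ≥ 4` it is
not a consequence of them if `E` is polygonal.

So Colmez's formula holds for the Faltings heights of all abelian varieties of dimension at most three with
complex multiplication by a field `E` of degree `2 n`, and for those of dimension four and five the only fields left are the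
dihedral fields of degree `16` and `20` (with `E` of degree `8` and `10` fixed by a reflection).

The proof.  Let `X` be the set of the embeddings and `c` the complex conjugation.  By `ExactCriterion` the question
is whether there is an odd constituent `χ` of dimension `d ≥ 2` with a Galois conjugate `χ'` different from `χ` and
from the complex conjugate of `χ`.  The sum of the products (multiplicity) · (dimension) over the odd
constituents is `n`.  So for `n ≤ 5` we have `d = 2`, the multiplicities are one, `χ` is real, and `n = 4` with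
the odd constituents `χ`, `χ'`, or `n = 5` with `χ`, `χ'` and a rational character `ψ` of degree one.  Let
`D(x,y) = S_χ(x,y) - S_χ'(x,y)`, `S_χ(x,y) = ∑_{g x = y} χ(g⁻¹)`: a symmetric kernel, invariant under the group,
odd under `c` in both variables, zero for `x = y` and with `D² = (|G| / 2) (S_χ + S_χ')`.
If `n = 4`, then `D²` is a scalar on the odd functions, so that `D` is given by a symmetric matrix of size `4`
with zero diagonal and the square a scalar.  A row has exactly one zero outside the diagonal: two zeros would give a rational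
value of `D`, and the orthogonality of the rows excludes that there is none; the two other values of a row agree
up to the sign, since the kernel of one of them commutes with `D`.  So `D(x,y) = t` is the adjacency of an
octagon.  If `n = 5`, some `g` has two cycles of length `5`, `g` is in the kernel of `ψ`, and the
orthogonality of `D` and `S_ψ` gives the values `0, t, -t, -t, t` of `D(x, g^i x)`; the conditions
`D(x,y) = -t`, `S_ψ(x,y) < 0` are the adjacency of a decagon.  An element which fixes `x` but not all points exists
because otherwise the multiplicity of `χ` would be `2`.  For the converse let `F` be the sum of the functions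
`δ_{ψ,θ} + δ_{θ,ψ}` of `ExactCriterion` for two neighbouring vertices: it is positive at the rotations by one step
and not positive at the rotations by `j` steps, `j ≠ 1, -1`, and for a unit `k ≠ 1, -1` modulo `2 n` the criterion
of `AveragedAndAbelian` would give `2 F(1) = F(k) + F(1/k)`.
-/

set_option autoImplicit false
set_option linter.unusedSectionVars false

open NumberField
open Pool.Agent.Results.MP_a2beea_nt.AveragedAndAbelian

namespace Pool.Agent.Results.MP_a2beea_nt.DimensionAtMostFive

/-- The Galois group of `K` acts on the embeddings of `E` into `K` as the full group of symmetries of the regular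
polygon with `2 n` vertices. -/
def Polygonal (E K : Type) [Field E] [NumberField E] [Field K] [NumberField K] (n : ℕ) : Prop :=
  ∃ e : ZMod (2 * n) ≃ (E →ₐ[ℚ] K),
    (∀ g : K ≃ₐ[ℚ] K, ∃ a : ZMod (2 * n),
      (∀ i, act g (e i) = e (a + i)) ∨ (∀ i, act g (e i) = e (a - i))) ∧
    ∀ a : ZMod (2 * n), (∃ g : K ≃ₐ[ℚ] K, ∀ i, act g (e i) = e (a + i)) ∧
      (∃ g : K ≃ₐ[ℚ] K, ∀ i, act g (e i) = e (a - i))

section

variable {E K : Type} [Field E] [NumberField E] [Field K] [NumberField K] [IsCMField K]
  [IsCMField E] [IsGalois ℚ K]

open Pool.Agent.U157.CC Pool.Agent.U157.CD Pool.Agent.Helper606_LC Pool.Agent.H541R3.ART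

lemma polygonal_iff (n : ℕ) : Polygonal E K n ↔ Poly (K ≃ₐ[ℚ] K) (E →ₐ[ℚ] K) (2 * n) :=
  Iff.rfl

end

open Pool.Agent.U157.CC Pool.Agent.U157.CD Pool.Agent.Helper606_LC Pool.Agent.H541R3.ART in
/-- **Main result.** -/
theorem result (E : Type) [Field E] [NumberField E] [IsCMField E]
    (K : Type) [Field K] [NumberField K] [IsGalois ℚ K] [IsCMField K] (ψ₀ : E →ₐ[ℚ] K)
    (n : ℕ) (hE : Module.finrank ℚ (maximalRealSubfield E) = n) :
    (n ≤ 5 → ((∀ Φ : Finset (E →ₐ[ℚ] K), IsCMType Φ → heightFn Φ ∈ avgSpan K ⊔ abSpan K) ↔
      (n ≤ 3 ∨ ¬ Polygonal E K n))) ∧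
    (4 ≤ n → Polygonal E K n →
      ∃ Φ : Finset (E →ₐ[ℚ] K), IsCMType Φ ∧ heightFn Φ ∉ avgSpan K ⊔ abSpan K) := by
  classical
  obtain ⟨-, -, -, e4⟩ := ExactCriterion.result E K ψ₀
  have r4 : (∀ (n : ℕ) (ρ : Representation ℂ (K ≃ₐ[ℚ] K) (Fin n → ℂ)),
      ExactCriterion.IsOddConstituent ψ₀ ρ → n ≠ 1 → ExactCriterion.QuadraticValues ρ) ↔
      ∀ χ : (K ≃ₐ[ℚ] K) → ℂ, OC (conjugation K) ψ₀ χ → χ 1 ≠ 1 →
        ∀ k : (ZMod (Nat.card (K ≃ₐ[ℚ] K)))ˣ, pw k χ = χ ∨ pw k χ = bar χ := by
    have h1 := PrimeDegree.all_oc ψ₀ (fun χ => χ 1 ≠ 1 → QuadVal χ)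
    refine Iff.trans ?_ (h1.trans ?_)
    · refine forall_congr' fun n => forall_congr' fun ρ => forall_congr' fun _ => ?_
      rw [char_one, Ne, Ne, Nat.cast_eq_one]
      exact Iff.rfl
    · exact forall_congr' fun χ => forall_congr' fun h => forall_congr' fun _ => (quad_iff h.irr).symm
  have hX : Fintype.card (E →ₐ[ℚ] K) = 2 * n := by rw [card_emb ψ₀, hE]
  have hfail : 4 ≤ n → Polygonal E K n →
      ¬ ∀ Φ : Finset (E →ₐ[ℚ] K), IsCMType Φ → heightFn Φ ∈ avgSpan K ⊔ abSpan K := by
    intro h4 hP hall
    obtain ⟨χ, k, B⟩ := poly_fail (G := K ≃ₐ[ℚ] K) (X := E →ₐ[ℚ] K) (c := conjugation K) f_hc f_hc2 f_hc1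
      f_free h4 ((polygonal_iff n).mp hP) ψ₀
    have h5 := r4.mp (e4.mp hall) χ B.oc B.deg k
    rcases h5 with h5 | h5
    · exact B.ne h5
    · exact B.nbar h5
  refine ⟨fun hn5 => ⟨fun hall => ?_, fun h => ?_⟩, fun h4 hP => ?_⟩
  · by_contra hcon
    push Not at hcon
    exact hfail (by omega) hcon.2 hall
  · rw [e4, r4]
    intro χ hχ h1 k
    by_contra hcon
    rw [not_or] at hcon
    obtain ⟨h4, hP⟩ := bad_poly (G := K ≃ₐ[ℚ] K) (X := E →ₐ[ℚ] K) (c := conjugation K) f_hc f_hc2 f_hc1
      f_free hX hn5 (x := ψ₀) (χ := χ) (k := k) ⟨hχ, h1, hcon.1, hcon.2⟩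
    rcases h with h | h
    · omega
    · exact h ((polygonal_iff n).mpr hP)
  · have h5 := hfail h4 hP
    push Not at h5
    exact h5

end Pool.Agent.Results.MP_a2beea_nt.DimensionAtMostFive
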