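import Pool.Agent.U157.CC.Base

/-!
# Colmez's product formula for CM fields with a doubly transitive maximal totally real subfield

`E` is a CM field, `E⁺` its maximal totally real subfield, `n = [E⁺ : ℚ]`; `K` is a CM field, Galois over `ℚ`,
which contains the conjugates of `E`.  The notions `conjugation`, `act`, `IsCMType`, `a0` (Colmez's function
`a⁰_{E,ψ,Φ}`), `heightFn` (`A_Φ = ∑_{ψ ∈ Φ} a⁰_{E,ψ,Φ}`, the function of the Faltings height) and `avgSpan` (the
span of `1` and of the sums of the `A_Φ` over all CM types of a field) are those of the starting file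
`AveragedAndAbelian`.  The formula holds for all functions in `avgSpan`: this is the averaged formula, proved by
Andreatta, Goren, Howard, Madapusi Pera and by Yuan, Zhang.

**Theorem.**
(1) If the Galois group acts doubly transitively on the embeddings of `E⁺` and `n` is odd, then `a⁰_{E,ψ,Φ}` is in
`avgSpan` for all CM types `Φ` of `E` and all `ψ`.
(2) The same holds if the action on the embeddings of `E⁺` is triply transitive and `n ≥ 3`.
(3) If the action on the embeddings of `E⁺` is doubly transitive and if `n` is not congruent to `2` modulo `4`, or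
`n - 1` is a square, then `A_Φ` is in `avgSpan` for all CM types `Φ` of `E`.

So Colmez's product formula holds for all CM types in (1) and (2), and the formula for the Faltings heights of
all CM types in (3).  Nothing is supposed on the extension `E/E⁺`.

The proof.  Let `X` be the set of the embeddings of `E`, on which the complex conjugation `c` acts freely with
`X/c` the set of the embeddings of `E⁺`.  By the exact criterion one needs the odd irreducible characters `χ` which
occur in the permutation character of `X`.  With `S_χ(x,y) = ∑_{g x = y} χ(g⁻¹)`, an odd function of `y`, which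
is determined up to a sign by two numbers if the action on `X/c` is doubly transitive, there are at most two such
`χ`.  If there is one with a Galois conjugate `χ' ≠ χ`, then these are the two, `D = S_χ - S_χ'` vanishes
at `(x,x)`, its values at the pairs `(x,y)` with `y ≠ x, cx` have all the same square, and `D` has orthogonal
rows.  The degrees and the multiplicities of `χ` and `χ'` are equal, so `n` is even: this is (1).  If
the action is triply transitive, the product `D(x,y) D(y,z) D(z,x)` is constant, which contradicts the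
orthogonality: this is (2).  For (3) one may suppose that `χ` and `χ'` are real; then `D` is symmetric and
`D / D(x₀,y₀)` gives a symmetric conference matrix of order `n`, so `n` is `2` modulo `4`; also
`(n - 1) D²` is the square of an integer, and the automorphism which exchanges `χ` and `χ'` maps `D` to
`-D`, so that `n - 1` is not a square.
-/

set_option autoImplicit false

open NumberField
open Pool.Agent.Results.MP_a2beea_nt.AveragedAndAbelian

namespace Pool.Agent.Results.MP_a2beea_nt.MultiplyTransitive

/-- The Galois group of `K` acts doubly transitively on the embeddings of the maximal totally real subfield of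
`E` into `K`. -/
def DoublyTransitive (E K : Type) [Field E] [NumberField E] [Field K] [NumberField K] : Prop :=
  ∀ α β α' β' : maximalRealSubfield E →ₐ[ℚ] K, α ≠ β → α' ≠ β' →
    ∃ g : K ≃ₐ[ℚ] K, act g α = α' ∧ act g β = β'

/-- The Galois group of `K` acts triply transitively on the embeddings of the maximal totally real subfield of
`E` into `K`. -/
def TriplyTransitive (E K : Type) [Field E] [NumberField E] [Field K] [NumberField K] : Prop :=
  ∀ α β γ α' β' γ' : maximalRealSubfield E →ₐ[ℚ] K, α ≠ β → β ≠ γ → γ ≠ α →
    α' ≠ β' → β' ≠ γ' → γ' ≠ α' →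
      ∃ g : K ≃ₐ[ℚ] K, act g α = α' ∧ act g β = β' ∧ act g γ = γ'

section

variable {E K : Type} [Field E] [NumberField E] [Field K] [NumberField K] [IsCMField K]
  [IsCMField E] [IsGalois ℚ K]

open Pool.Agent.U157.CC

lemma lift_or {g : K ≃ₐ[ℚ] K} {x x' : E →ₐ[ℚ] K} (h : act g (restr x) = restr x') :
    g • x = x' ∨ g • x = conjugation K • x' :=
  restr_eq (ψ := x') (θ := g • x) h

lemma two (h : DoublyTransitive E K) : Two (conjugation K) (E →ₐ[ℚ] K) := by
  intro x y x' y' hxy hxy'
  obtain ⟨g, h1, h2⟩ := h (restr x) (restr y) (restr x') (restr y') (far_restr hxy)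
    (far_restr hxy')
  exact ⟨g, lift_or h1, lift_or h2⟩

lemma three (h : TriplyTransitive E K) : Three (conjugation K) (E →ₐ[ℚ] K) := by
  intro x y z x' y' z' hxy hyz hzx hxy' hyz' hzx'
  obtain ⟨g, h1, h2, h3⟩ := h (restr x) (restr y) (restr z) (restr x') (restr y') (restr z')
    (far_restr hxy) (far_restr hyz) (far_restr hzx) (far_restr hxy') (far_restr hyz')
    (far_restr hzx')
  exact ⟨g, lift_or h1, lift_or h2, lift_or h3⟩

lemma two_of_three (h : Three (conjugation K) (E →ₐ[ℚ] K))
    (hn : 6 ≤ Fintype.card (E →ₐ[ℚ] K)) : Two (conjugation K) (E →ₐ[ℚ] K) := by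
  classical
  have hex : ∀ x y : E →ₐ[ℚ] K, Far (conjugation K) x y →
      ∃ z, Far (conjugation K) y z ∧ Far (conjugation K) z x := by
    intro x y _
    obtain ⟨z, hz⟩ : ∃ z, z ∉ ({x, conjugation K • x, y, conjugation K • y} :
        Finset (E →ₐ[ℚ] K)) := by
      by_contra hcon
      push Not at hcon
      have h1 : (Finset.univ : Finset (E →ₐ[ℚ] K)).card ≤
          ({x, conjugation K • x, y, conjugation K • y} : Finset (E →ₐ[ℚ] K)).card :=
        Finset.card_le_card fun y _ => hcon y
      have h2 : ({x, conjugation K • x, y, conjugation K • y} : Finset (E →ₐ[ℚ] K)).card ≤ 4 :=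
        Finset.card_le_four
      rw [Finset.card_univ] at h1
      omega
    simp only [Finset.mem_insert, Finset.mem_singleton, not_or] at hz
    exact ⟨z, ⟨hz.2.2.1, hz.2.2.2⟩, far_symm f_hc2 ⟨hz.1, hz.2.1⟩⟩
  intro x y x' y' hxy hxy'
  obtain ⟨z, hyz, hzx⟩ := hex x y hxy
  obtain ⟨z', hyz', hzx'⟩ := hex x' y' hxy'
  obtain ⟨g, h1, h2, -⟩ := h x y z x' y' z' hxy hyz hzx hxy' hyz' hzx'
  exact ⟨g, h1, h2⟩

end

open Pool.Agent.U157.CC in
/-- **Main result.** -/
theorem result (E : Type) [Field E] [NumberField E] [IsCMField E]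
    (K : Type) [Field K] [NumberField K] [IsGalois ℚ K] [IsCMField K] :
    (DoublyTransitive E K → Odd (Module.finrank ℚ (maximalRealSubfield E)) →
      ∀ Φ : Finset (E →ₐ[ℚ] K), IsCMType Φ → ∀ ψ : E →ₐ[ℚ] K, a0 ψ Φ ∈ avgSpan K) ∧
    (TriplyTransitive E K → 3 ≤ Module.finrank ℚ (maximalRealSubfield E) →
      ∀ Φ : Finset (E →ₐ[ℚ] K), IsCMType Φ → ∀ ψ : E →ₐ[ℚ] K, a0 ψ Φ ∈ avgSpan K) ∧
    (DoublyTransitive E K → (Module.finrank ℚ (maximalRealSubfield E) % 4 ≠ 2 ∨
        ∃ s : ℕ, Module.finrank ℚ (maximalRealSubfield E) = s ^ 2 + 1) →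
      ∀ Φ : Finset (E →ₐ[ℚ] K), IsCMType Φ → heightFn Φ ∈ avgSpan K) := by
  classical
  refine ⟨?_, ?_, ?_⟩
  · intro hT hodd Φ hΦ ψ
    exact base_one ψ (fun χ hχ k => trans_a f_hc f_hc2 f_hc1 f_free (two hT) (card_emb ψ) hodd hχ k)
      hΦ ψ
  · intro hT hn Φ hΦ ψ
    have h6 : 6 ≤ Fintype.card (E →ₐ[ℚ] K) := by
      rw [card_emb ψ]
      omega
    exact base_one ψ (fun χ hχ k => trans_b f_hc f_hc2 f_hc1 f_free
      (two_of_three (three hT) h6) (three hT) h6 hχ k) hΦ ψ
  · intro hT hcond Φ hΦ
    by_cases hne : Nonempty (E →ₐ[ℚ] K)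
    · obtain ⟨ψ₀⟩ := hne
      exact base_two ψ₀ (fun χ hχ k => trans_c f_hc f_hc2 f_hc1 f_free (two hT) (card_emb ψ₀)
        hcond hχ k) hΦ
    · have h1 : heightFn Φ = 0 := by
        funext g
        unfold heightFn
        exact Finset.sum_eq_zero fun ψ _ => absurd ⟨ψ⟩ hne
      rw [h1]
      exact Submodule.zero_mem _

end Pool.Agent.Results.MP_a2beea_nt.MultiplyTransitive
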